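import Mathlib
import Pool.Agent.H.MP_827700_an.A

set_option autoImplicit false

namespace Pool.Agent.Results.MP_827700_an.Yes

open Set Filter Topology MeasureTheory ExpGrowth Pool.Agent.H.MP_827700_an
open scoped Pointwise

theorem result (G : Type) [AddCommGroup G] [TopologicalSpace G] [IsTopologicalAddGroup G] [T2Space G]
    [LocallyCompactSpace G] [MeasurableSpace G] [BorelSpace G] (μ : Measure G) [μ.IsAddHaarMeasure]
    (φ : G →+ G) (hφ : Continuous φ) (I : Type) (K : I → AddSubgroup G)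
    (hc : ∀ i, IsClosed (K i : Set G)) (hi : ∀ i, ∀ x ∈ K i, φ x ∈ K i) (hd : Directed (· ≤ ·) K)
    (hu : ∀ x, ∃ i, x ∈ K i) (ν : ∀ i, Measure (K i)) [∀ i, (ν i).IsAddHaarMeasure] :
    hA μ φ = ⨆ i, hA (ν i) (res φ (K i) (hi i)) := by
  let ψ := fun i => (φ.comp (K i).subtype).codRestrict (K i) fun x => hi i x x.2
  have e := fun i => (hc i).isClosedEmbedding_subtypeVal
  refine le_antisymm (iSup₂_le fun C ⟨c, c0⟩ => ?_) (iSup_le fun i =>
    mono μ (ν i) (K i).subtype (e i) φ hφ (ψ i) fun _ => rfl)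
  obtain ⟨t, ht⟩ := compact_covered_by_add_left_translates ((c.image hφ).add c)
    ⟨0, mem_interior_iff_mem_nhds.2 c0⟩
  have : Nonempty I := ⟨(hu 0).choose⟩
  obtain ⟨i, h⟩ := Directed.exists_mem_subset_of_finset_subset_biUnion (f := fun i => (K i : Set G)) hd
    (s := t) fun x _ => mem_iUnion.2 (hu x)
  have := (hc i).locallyCompactSpace
  refine le_iSup_of_le i (fin_le μ (ν i) (K i).subtype (e i) φ (ψ i)
    ((hφ.comp continuous_subtype_val).subtype_mk _) (fun _ => rfl) c (mem_of_mem_nhds c0)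
    (-(Subtype.val ⁻¹' t)) (t.finite_toSet.preimage Subtype.val_injective.injOn).neg fun x hx => ?_)
  obtain ⟨g, a, b⟩ := mem_iUnion₂.1 (ht hx)
  exact ⟨_, ⟨-⟨g, h a⟩, by simpa, rfl⟩, _, b, by simp⟩

end Pool.Agent.Results.MP_827700_an.Yes
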